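import Pool.Agent.MVK.Stmts

/-!
# Squad MVK, row ABS
-/

namespace Pool.Agent.MVK.H31

open Pool.Agent.Helper14_MV Pool.Agent.Helper2_MV Pool.Agent.MVD Pool.Agent.MVK

variable {β : FIC}

theorem rr_trans {a b c : List ℕ} (h : RR β a b) (h' : RR β b c) : RR β a c := β.trans h h'

theorem ctx2 (H : CQ β) (y : ℕ) (u : List ℕ) :
    RR β (List.replicate 2 y ++ u) (u ++ List.replicate 2 y) := by
  have h := RR.sub (fun c => if c = 0 then [y] else if c = 2 then u else []) H.1
  simpa [List.replicate] using h

theorem ctx3 (H : CQ β) (y : ℕ) (u : List ℕ) :
    RR β (List.replicate 3 y ++ u) (u ++ List.replicate 3 y) := by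
  have h := RR.sub (fun c => if c = 0 then [y] else if c = 2 then u else []) H.2
  simpa [List.replicate] using h

theorem move (H : CQ β) (y : ℕ) (u : List ℕ) : ∀ j : ℕ, 2 ≤ j →
    RR β (List.replicate j y ++ u) (u ++ List.replicate j y) := by
  intro j
  induction j using Nat.strong_induction_on with
  | _ j ih =>
    intro hj
    by_cases h2 : j = 2
    · subst h2
      exact ctx2 H y u
    by_cases h3 : j = 3
    · subst h3
      exact ctx3 H y u
    obtain ⟨i, rfl⟩ : ∃ i, j = 2 + i := ⟨j - 2, by omega⟩
    have h := ih i (by omega) (by omega)
    rw [List.replicate_add]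
    have e1 : RR β (List.replicate 2 y ++ List.replicate i y ++ u)
        (List.replicate 2 y ++ (u ++ List.replicate i y)) := by
      rw [List.append_assoc]
      exact (RR.refl _).append h
    have e2 : RR β (List.replicate 2 y ++ (u ++ List.replicate i y))
        (u ++ (List.replicate 2 y ++ List.replicate i y)) := by
      rw [← List.append_assoc, ← List.append_assoc]
      exact (ctx2 H y u).append (RR.refl _)
    exact rr_trans e1 e2

theorem gather (H : CQ β) (y : ℕ) : ∀ (q : List ℕ) (j : ℕ), 2 ≤ j →
    RR β (List.replicate j y ++ q)
      (q.filter (fun c => decide (c ≠ y)) ++ List.replicate (j + q.count y) y) := by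
  intro q
  induction q with
  | nil =>
    intro j _
    simpa using RR.refl (β := β) (List.replicate j y)
  | cons c q ih =>
    intro j hj
    by_cases hc : c = y
    · subst hc
      have h := ih (j + 1) (by omega)
      have e1 : List.replicate (j + 1) c ++ q = List.replicate j c ++ c :: q := by
        rw [List.replicate_succ']
        simp
      have e2 : (c :: q).filter (fun d => decide (d ≠ c)) = q.filter (fun d => decide (d ≠ c)) := by
        rw [List.filter_cons]
        simp
      have e3 : j + (c :: q).count c = j + 1 + q.count c := by
        rw [List.count_cons_self]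
        omega
      rw [e2, e3, ← e1]
      exact h
    · have h := ih j hj
      have e2 : (c :: q).filter (fun d => decide (d ≠ y)) =
          c :: q.filter (fun d => decide (d ≠ y)) := by
        rw [List.filter_cons]
        simp [hc]
      have e3 : (c :: q).count y = q.count y := List.count_cons_of_ne (Ne.symm (Ne.symm hc))
      rw [e2, e3]
      have e4 : RR β (List.replicate j y ++ c :: q) (c :: (List.replicate j y ++ q)) := by
        have h5 := (move H y [c] j hj).append (RR.refl (β := β) q)
        simpa using h5
      have e5 : RR β (c :: (List.replicate j y ++ q)) (c ::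
          (q.filter (fun d => decide (d ≠ y)) ++ List.replicate (j + q.count y) y)) := by
        have h5 := (RR.refl (β := β) [c]).append h
        simpa using h5
      exact rr_trans e4 e5

theorem filter_eq_rep (y : ℕ) (w : List ℕ) :
    w.filter (fun c => decide (c = y)) = List.replicate (w.count y) y := by
  rw [List.eq_replicate_iff]
  constructor
  · rw [List.count_eq_length_filter]
    congr 1
  · intro b hb
    exact of_decide_eq_true (List.mem_filter.1 hb).2

theorem abs : AbsStmt := by
  intro β
  constructor
  · intro H p q y
    have h1 : RR β (p ++ y :: y :: q) (List.replicate 2 y ++ (p ++ q)) := by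
      have h5 := (move H y p 2 le_rfl).symm.append (RR.refl (β := β) q)
      simpa [List.replicate] using h5
    have h2 := gather H y (p ++ q) 2 le_rfl
    have h3 := rr_trans h1 h2
    have e1 : (p ++ y :: y :: q).filter (fun c => decide (c ≠ y)) =
        (p ++ q).filter (fun c => decide (c ≠ y)) := by
      rw [List.filter_append, List.filter_append, List.filter_cons, List.filter_cons]
      simp
    have e2 : (p ++ y :: y :: q).count y = 2 + (p ++ q).count y := by
      rw [List.count_append, List.count_append, List.count_cons_self, List.count_cons_self]
      omega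
    unfold Kd
    rw [e1, e2]
    exact h3
  · intro y w w' h hk
    have h1 : RR β (w.filter (fun c => decide (c ≠ y))) (w'.filter (fun c => decide (c ≠ y))) :=
      h.filter _
    have h2 : RR β (List.replicate (w.count y) y) (List.replicate (w'.count y) y) := by
      rw [← filter_eq_rep, ← filter_eq_rep]
      exact h.filter _
    exact rr_trans (rr_trans h hk) (h1.append h2).symm

end Pool.Agent.MVK.H31
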